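import Pool.Agent.Helper42.SLC.Goals

/-!
# Project SL, at most one exceptional field: module NB2 (cosets)
-/

namespace Pool.Agent.Helper40.SLC

open Pool.Agent.Helper42.SLC
open Pool.Agent.Helper17.SL
open Pool.Agent.Helper51.SigLeo Pool.Agent.Helper51.SixExp NumberField Module TensorProduct

universe u v w x y z

/-- Two automorphisms that are not trivial on the quadratic field `K` agree on `K`. -/
theorem agree_of_nontrivial {k₀ K N : Type*} [Field k₀] [Field K] [Field N] [CharZero k₀]
    [Algebra k₀ K] [Algebra k₀ N] [Algebra K N] [IsScalarTower k₀ K N]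
    (h2 : finrank k₀ K = 2) (g s : N ≃ₐ[k₀] N)
    (hg : ∃ x : K, g (algebraMap K N x) ≠ algebraMap K N x)
    (hs : ∃ x : K, s (algebraMap K N x) ≠ algebraMap K N x) (x : K) :
    g (algebraMap K N x) = s (algebraMap K N x) := by
  classical
  have : FiniteDimensional k₀ K := FiniteDimensional.of_finrank_pos (by omega)
  have : Algebra.IsQuadraticExtension k₀ K := ⟨h2⟩
  have : Normal k₀ K := inferInstance
  have hcard : Fintype.card (K ≃ₐ[k₀] K) ≤ 2 := h2 ▸ AlgEquiv.card_le
  set gK : K ≃ₐ[k₀] K := g.restrictNormal K with hgK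
  set sK : K ≃ₐ[k₀] K := s.restrictNormal K with hsK
  have hgc : ∀ y : K, algebraMap K N (gK y) = g (algebraMap K N y) := fun y ↦
    AlgEquiv.restrictNormal_commutes g K y
  have hsc : ∀ y : K, algebraMap K N (sK y) = s (algebraMap K N y) := fun y ↦
    AlgEquiv.restrictNormal_commutes s K y
  have hg1 : gK ≠ 1 := by
    intro h
    obtain ⟨y, hy⟩ := hg
    apply hy
    rw [← hgc, h]
    rfl
  have hs1 : sK ≠ 1 := by
    intro h
    obtain ⟨y, hy⟩ := hs
    apply hy
    rw [← hsc, h]
    rfl
  have hgs : gK = sK := by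
    by_contra hne
    have h3 : ({1, gK, sK} : Finset (K ≃ₐ[k₀] K)).card = 3 := by
      rw [Finset.card_eq_three]
      exact ⟨1, gK, sK, hg1.symm, hs1.symm, hne, rfl⟩
    have h4 := Finset.card_le_univ ({1, gK, sK} : Finset (K ≃ₐ[k₀] K))
    rw [h3] at h4
    omega
  rw [← hgc, ← hsc, hgs]

/-- **NB2**. -/
theorem nb2 : S_NB2.{u, v, w, x} := by
  intro k₀ _ K _ N _ _ _ _ _ _ _ _ _ _ A _ θ θK s h2 hθ hs ℓ v
  classical
  have : CharZero k₀ := by
    have hinj := (algebraMap k₀ N).injective
    exact (RingHom.charZero_iff hinj).2 inferInstance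
  let f : (N ≃ₐ[K] N) ⊕ (N ≃ₐ[K] N) → (N ≃ₐ[k₀] N) :=
    Sum.elim (fun h ↦ h.restrictScalars k₀) (fun h ↦ h.restrictScalars k₀ * s)
  have hP : ∀ (h : N ≃ₐ[K] N) (x : K),
      (h.restrictScalars k₀) (algebraMap K N x) = algebraMap K N x := fun h x ↦ h.commutes x
  have hres : ∀ h h' : N ≃ₐ[K] N, h.restrictScalars k₀ = h'.restrictScalars k₀ → h = h' := by
    intro h h' e
    ext y
    exact DFunLike.congr_fun e y
  have hsmap : ∀ x : K, ∃ y : K, s (algebraMap K N x) = algebraMap K N y := by
    intro x
    have : FiniteDimensional k₀ K := FiniteDimensional.of_finrank_pos (by omega)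
    have : Algebra.IsQuadraticExtension k₀ K := ⟨h2⟩
    have : Normal k₀ K := inferInstance
    exact ⟨s.restrictNormal K x, (AlgEquiv.restrictNormal_commutes s K x).symm⟩
  have hNP : ∀ h : N ≃ₐ[K] N, ∃ x : K,
      (h.restrictScalars k₀ * s) (algebraMap K N x) ≠ algebraMap K N x := by
    intro h
    obtain ⟨x, hx⟩ := hs
    refine ⟨x, ?_⟩
    intro e
    obtain ⟨y, hy⟩ := hsmap x
    apply hx
    rw [AlgEquiv.mul_apply, hy, hP] at e
    rw [hy, e]
  have hbij : Function.Bijective f := by
    constructor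
    · rintro (h | h) (h' | h') e
      · exact congrArg Sum.inl (hres _ _ e)
      · exfalso
        obtain ⟨x, hx⟩ := hNP h'
        apply hx
        have e' : h.restrictScalars k₀ = h'.restrictScalars k₀ * s := e
        rw [← e']
        exact hP h x
      · exfalso
        obtain ⟨x, hx⟩ := hNP h
        apply hx
        have e' : h.restrictScalars k₀ * s = h'.restrictScalars k₀ := e
        rw [e']
        exact hP h' x
      · have e' : h.restrictScalars k₀ * s = h'.restrictScalars k₀ * s := e
        exact congrArg Sum.inr (hres _ _ (mul_right_cancel e'))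
    · intro g
      by_cases hg : ∀ x : K, g (algebraMap K N x) = algebraMap K N x
      · let h : N ≃ₐ[K] N := AlgEquiv.ofRingEquiv (f := (g : N ≃+* N)) hg
        refine ⟨Sum.inl h, ?_⟩
        show h.restrictScalars k₀ = g
        ext y
        rfl
      · have hg' : ∃ x : K, g (algebraMap K N x) ≠ algebraMap K N x := by
          by_contra hcon
          apply hg
          intro x
          by_contra hx
          exact hcon ⟨x, hx⟩
        have hagree := agree_of_nontrivial (k₀ := k₀) (K := K) h2 g s hg' hs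
        have hgs : ∀ x : K, (g * s⁻¹) (algebraMap K N x) = algebraMap K N x := by
          intro x
          -- `algebraMap x = s (algebraMap y)` for some `y`
          have : FiniteDimensional k₀ K := FiniteDimensional.of_finrank_pos (by omega)
          have : Algebra.IsQuadraticExtension k₀ K := ⟨h2⟩
          have : Normal k₀ K := inferInstance
          have hy : s⁻¹ (algebraMap K N x) = algebraMap K N ((s⁻¹).restrictNormal K x) :=
            (AlgEquiv.restrictNormal_commutes s⁻¹ K x).symm
          rw [AlgEquiv.mul_apply, hy, hagree, ← hy, ← AlgEquiv.mul_apply, mul_inv_cancel]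
          rfl
        let h : N ≃ₐ[K] N := AlgEquiv.ofRingEquiv (f := ((g * s⁻¹ : N ≃ₐ[k₀] N) : N ≃+* N)) hgs
        refine ⟨Sum.inr h, ?_⟩
        show h.restrictScalars k₀ * s = g
        have hh : h.restrictScalars k₀ = g * s⁻¹ := by
          ext y
          rfl
        rw [hh, inv_mul_cancel_right]
  unfold tw
  rw [← Fintype.sum_bijective f hbij (fun r ↦ ((θ (f r)⁻¹ : Aˣ) : A) * ℓ (unitsHom (f r) v))
    (fun g ↦ ((θ g⁻¹ : Aˣ) : A) * ℓ (unitsHom g v)) (fun r ↦ rfl), Fintype.sum_sum_type]
  congr 1
  · refine Finset.sum_congr rfl fun h _ ↦ ?_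
    rw [hθ]
    rfl
  · rw [Finset.mul_sum]
    refine Finset.sum_congr rfl fun h _ ↦ ?_
    show ((θ (h.restrictScalars k₀ * s)⁻¹ : Aˣ) : A) *
      ℓ (unitsHom (h.restrictScalars k₀ * s) v) = _
    rw [hθ, mul_inv_rev, map_mul, Units.val_mul, mul_assoc]
    congr 1

end Pool.Agent.Helper40.SLC
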